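import Mathlib
import Pool.Agent.R499.FranelPower

/-!
# `2n` divides `∑_{k<n} (-1)^{rk} (3k+2) f_k^{(r)}` for every exponent `r`
-/

namespace Pool.Agent.Results.MP_ede29a_nt.AllExponents

open Finset

/-- `f_n^{(r)} = ∑_{k=0}^{n} C(n,k)^r`. -/
def f (r n : ℕ) : ℕ := ∑ k ∈ range (n + 1), (n.choose k) ^ r

/-- For all `r, n ≥ 0`, `2 n` divides `∑_{k=0}^{n-1} (-1)^{rk} (3k+2) f_k^{(r)}`. -/
theorem result (r n : ℕ) :
    (2 * (n : ℤ)) ∣ ∑ k ∈ range n, (-1) ^ (r * k) * (3 * (k : ℤ) + 2) * (f r k : ℤ) :=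
  Pool.Agent.R499.FranelPower.two_n r n

end Pool.Agent.Results.MP_ede29a_nt.AllExponents
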